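import Pool.Agent.Helper83.TW.Goals1

/-! Resonant Fourier coefficients are quadratically small (packet TW-GRESC). -/

set_option autoImplicit false

namespace Pool.Agent.Helper80.TW

open Complex Set Pool.Agent.Helper83.TW MeasureTheory

/-- translation of the first variable by a multiple of a resonant rotation number does not change
the resonant Fourier coefficient -/
theorem shift_fc (E : ℂ × ℂ → ℂ) (w : ℂ) (hper : ∀ x : ℝ, E (((x + 1 : ℝ) : ℂ), w) = E ((x : ℂ), w))
    (m : ℤ) (w0 : ℝ) (i : ℕ) (k : ℤ) (hk : (m : ℝ) * ((i : ℝ) * w0) = k) :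
    ∫ x in (0:ℝ)..1, E (((x + (i : ℝ) * w0 : ℝ) : ℂ), w) *
        Complex.exp (-(2 * Real.pi * m * x : ℝ) * I) = fc E m w := by
  set G : ℝ → ℂ := fun x => E ((x : ℂ), w) * Complex.exp (-(2 * Real.pi * m * x : ℝ) * I) with hG
  have hGper : Function.Periodic G 1 := by
    intro x
    simp only [hG]
    rw [hper x]
    congr 1
    have : (-(2 * Real.pi * m * (x + 1) : ℝ) * I : ℂ)
        = -(2 * Real.pi * m * x : ℝ) * I + ((-m : ℤ) : ℂ) * (2 * Real.pi * I) := by
      push_cast; ring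
    rw [this, Complex.exp_add, Complex.exp_int_mul_two_pi_mul_I, mul_one]
  have h1 : ∀ x : ℝ, E (((x + (i : ℝ) * w0 : ℝ) : ℂ), w) *
      Complex.exp (-(2 * Real.pi * m * x : ℝ) * I) = G (x + (i : ℝ) * w0) := by
    intro x
    simp only [hG]
    congr 1
    have hk' : (m : ℂ) * ((i : ℂ) * (w0 : ℂ)) = (k : ℂ) := by
      have := congrArg (fun t : ℝ => (t : ℂ)) hk
      push_cast at this
      exact this
    have : (-(2 * Real.pi * m * (x + (i : ℝ) * w0) : ℝ) * I : ℂ)
        = -(2 * Real.pi * m * x : ℝ) * I + ((-k : ℤ) : ℂ) * (2 * Real.pi * I) := by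
      push_cast
      rw [← hk']
      ring
    rw [this, Complex.exp_add, Complex.exp_int_mul_two_pi_mul_I, mul_one]
  calc ∫ x in (0:ℝ)..1, E (((x + (i : ℝ) * w0 : ℝ) : ℂ), w) *
        Complex.exp (-(2 * Real.pi * m * x : ℝ) * I)
      = ∫ x in (0:ℝ)..1, G (x + (i : ℝ) * w0) := by
        apply intervalIntegral.integral_congr
        intro x _
        exact h1 x
    _ = ∫ x in (0 + (i : ℝ) * w0)..(1 + (i : ℝ) * w0), G x := by
        rw [intervalIntegral.integral_comp_add_right]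
    _ = ∫ x in ((i : ℝ) * w0)..((i : ℝ) * w0 + 1), G x := by
        rw [zero_add, add_comm (1 : ℝ)]
    _ = ∫ x in (0 : ℝ)..(0 + 1), G x := hGper.intervalIntegral_add_eq _ _
    _ = fc E m w := by rw [zero_add]; rfl

theorem gresc : GRESB → GFour1 → GEE1 → GRESC := by
  intro hB hF hE ρ r s δ Λ η M hP g hg hper S c hS hc herr m j hm hmM hj1 hj2
  obtain ⟨-, -, hHol, -⟩ := hE ρ r s δ Λ η M hP g hg S c hS hc
  have hδ := hP.hδ0
  have hr0 := hP.hr0
  have hρ0 := hP.hρ0
  have hs0 := hP.hs0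
  -- the natural number `n = |m|` and `j' = j * sign m`
  set n : ℕ := m.natAbs with hn
  have hn1 : 1 ≤ n := Int.natAbs_pos.mpr hm
  have hnM : n ≤ M := by
    have : ((n : ℕ) : ℤ) ≤ (M : ℤ) := by
      rw [hn, Int.natCast_natAbs]; exact hmM
    exact_mod_cast this
  set j' : ℤ := j * m.sign with hj'
  have hms : (m : ℤ) = m.sign * (n : ℤ) := by
    rw [hn]; exact (Int.sign_mul_natAbs m).symm
  have hs2 : m.sign * m.sign = 1 := by
    rcases lt_trichotomy m 0 with h | h | h
    · rw [Int.sign_eq_neg_one_of_neg h]; norm_num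
    · exact absurd h hm
    · rw [Int.sign_eq_one_of_pos h]; norm_num
  have hmR : (m : ℝ) ≠ 0 := by exact_mod_cast hm
  have hnR : (n : ℝ) ≠ 0 := by
    have : n ≠ 0 := by omega
    exact_mod_cast this
  have hw : (j' : ℝ) / (n : ℝ) = (j : ℝ) / (m : ℝ) := by
    rw [div_eq_div_iff hnR hmR]
    have : j' * m = j * (n : ℤ) := by
      calc j' * m = j * m.sign * (m.sign * (n : ℤ)) := by rw [hj', ← hms]
        _ = j * (m.sign * m.sign) * (n : ℤ) := by ring
        _ = j * (n : ℤ) := by rw [hs2, mul_one]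
    exact_mod_cast this
  obtain ⟨C, hC⟩ := hB ρ r s δ Λ η M hP g hg hper S c hS hc herr n j' hn1 hnM
    (by rw [hw]; exact hj1) (by rw [hw]; exact hj2)
  rw [hw] at hC
  set w0 : ℝ := (j : ℝ) / (m : ℝ) with hw0
  have hwOm : (w0 : ℂ) ∈ Om s := Om_real (by linarith) (by linarith) hs0
  set f : ℂ → ℂ := fun α => ∑ i ∈ Finset.range n, Err g S (α + i * (w0 : ℂ), (w0 : ℂ)) with hf
  have hmem : ∀ (z : ℂ) (i : ℕ), |z.im| < r - 4*δ → (z + i * (w0 : ℂ), (w0 : ℂ)) ∈ Dom (r - δ) s := by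
    intro z i hz
    refine ⟨?_, hwOm⟩
    have : (z + i * (w0 : ℂ)).im = z.im := by simp
    show |(z + i * (w0 : ℂ)).im| < r - δ
    rw [this]; linarith
  have hdiff : DifferentiableOn ℂ f {z | |z.im| < r - 4*δ} := by
    rw [hf]
    apply DifferentiableOn.fun_sum
    intro i _
    have h1 : DifferentiableOn ℂ (fun z : ℂ => (z + i * (w0 : ℂ), (w0 : ℂ)))
        {z | |z.im| < r - 4*δ} := by fun_prop
    exact hHol.diff.comp h1 (fun z hz => hmem z i hz)
  have hfper : ∀ z : ℂ, |z.im| < r - 4*δ → f (z + 1) = f z := by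
    intro z hz
    simp only [hf]
    apply Finset.sum_congr rfl
    intro i _
    have := hHol.per _ (hmem z i hz)
    rw [← this]
    congr 2
    ring
  have hbound := hF (r - 4*δ) (Λ^14 * η^2) f C (by linarith) hdiff hfper
    (fun z hz => hC z hz) m hm
  -- compute the integral
  have hint : ∀ i : ℕ, ∫ x in (0:ℝ)..1, Err g S (((x + (i : ℝ) * w0 : ℝ) : ℂ), (w0 : ℂ)) *
        Complex.exp (-(2 * Real.pi * m * x : ℝ) * I) = fc (Err g S) m (w0 : ℂ) := by
    intro i
    apply shift_fc (Err g S) (w0 : ℂ) _ m w0 i ((i : ℤ) * j)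
    · rw [hw0]
      push_cast
      field_simp
    · intro x
      have hx : ((x : ℂ), (w0 : ℂ)) ∈ Dom (r - δ) s := by
        refine ⟨?_, hwOm⟩
        show |((x : ℂ)).im| < r - δ
        rw [ofReal_im, abs_zero]; linarith
      have := hHol.per _ hx
      rw [← this]
      push_cast
      rfl
  have hcont : ∀ i : ℕ, Continuous fun x : ℝ =>
      Err g S (((x + (i : ℝ) * w0 : ℝ) : ℂ), (w0 : ℂ)) *
        Complex.exp (-(2 * Real.pi * m * x : ℝ) * I) := by
    intro i
    apply Continuous.mul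
    · have h1 : Continuous fun x : ℝ => (((x + (i : ℝ) * w0 : ℝ) : ℂ), (w0 : ℂ)) := by fun_prop
      apply hHol.diff.continuousOn.comp_continuous h1
      intro x
      refine ⟨?_, hwOm⟩
      show |(((x + (i : ℝ) * w0 : ℝ) : ℂ)).im| < r - δ
      rw [ofReal_im, abs_zero]; linarith
    · fun_prop
  have hsum : ∫ x in (0:ℝ)..1, f (x : ℂ) * Complex.exp (-(2 * Real.pi * m * x : ℝ) * I)
      = n * fc (Err g S) m (w0 : ℂ) := by
    have h1 : ∀ x : ℝ, f (x : ℂ) * Complex.exp (-(2 * Real.pi * m * x : ℝ) * I)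
        = ∑ i ∈ Finset.range n, Err g S (((x + (i : ℝ) * w0 : ℝ) : ℂ), (w0 : ℂ)) *
          Complex.exp (-(2 * Real.pi * m * x : ℝ) * I) := by
      intro x
      simp only [hf]
      rw [Finset.sum_mul]
      apply Finset.sum_congr rfl
      intro i _
      push_cast
      rfl
    rw [intervalIntegral.integral_congr (g := fun x : ℝ =>
      ∑ i ∈ Finset.range n, Err g S (((x + (i : ℝ) * w0 : ℝ) : ℂ), (w0 : ℂ)) *
          Complex.exp (-(2 * Real.pi * m * x : ℝ) * I)) (fun x _ => h1 x)]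
    rw [intervalIntegral.integral_finsetSum (fun i _ => (hcont i).intervalIntegrable _ _)]
    rw [Finset.sum_congr rfl (fun i _ => hint i)]
    simp
  rw [hsum, norm_mul, Complex.norm_natCast] at hbound
  have hn1R : (1 : ℝ) ≤ n := by exact_mod_cast hn1
  calc ‖fc (Err g S) m (w0 : ℂ)‖ ≤ n * ‖fc (Err g S) m (w0 : ℂ)‖ :=
        le_mul_of_one_le_left (norm_nonneg _) hn1R
    _ ≤ _ := hbound

end Pool.Agent.Helper80.TW
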